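import Pool.Agent.Work.MP_85d607_co.Final

/-!
# MP_85d607_co: `G` and `G + xy` that are both surface obstructions

There is a graph `G` with two distinct non-adjacent vertices `x`, `y` such that `G` is an
obstruction for the orientable surface of genus 7 and `G + xy` is an obstruction for the
orientable surface of genus 8.
-/

namespace Pool.Agent.Results.MP_85d607_co.Hoppers

open Hopper

theorem result : ∃ (V : Type) (_ : Finite V) (G : SimpleGraph V) (x y : V),
    x ≠ y ∧ ¬ G.Adj x y ∧
    Hopper.IsObstruction ⟨V, inferInstance, G⟩ 7 ∧
    Hopper.IsObstruction ⟨V, inferInstance, G ⊔ SimpleGraph.edge x y⟩ 8 :=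
  Hopper.hopper

end Pool.Agent.Results.MP_85d607_co.Hoppers
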